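import Pool.Agent.H57.Gol.LOne

/-!
`charBound`: Mertens' theorem for real characters with bounded partial sums, with explicit
dependence on the bound.
-/

set_option autoImplicit false

namespace Pool.Agent.H57.Gol

open Finset Filter Topology ArithmeticFunction ArithmeticFunction.vonMangoldt

variable {f : ℕ → ℝ} {M : ℝ}

lemma half_le_log_two : (1:ℝ)/2 ≤ Real.log 2 := by
  have := Real.log_two_gt_d9
  linarith

/-- the threshold `Y` -/
lemma exists_Y (hM : 2 ≤ M) : ∃ Y : ℕ, 3 ≤ Y ∧ M ≤ Y ∧ Real.log (2 * Y) ≤ 5 * Real.log M ∧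
    Real.log (Y + 1) ≤ 5 * Real.log M := by
  refine ⟨⌈M⌉₊ + 1, ?_, ?_, ?_⟩
  · have h : (2:ℝ) ≤ ⌈M⌉₊ := hM.trans (Nat.le_ceil M)
    have : 2 ≤ ⌈M⌉₊ := by exact_mod_cast h
    omega
  · push_cast
    linarith [Nat.le_ceil M]
  · have h1 := (Nat.ceil_lt_add_one (by linarith : 0 ≤ M)).le
    have h2 : (4:ℝ) ≤ M^2 := by nlinarith
    have h3 : (8:ℝ) ≤ M^3 := by nlinarith
    have h5 : 5 * Real.log M = Real.log (M^5) := by rw [Real.log_pow]; norm_num
    have h6 : 8 * M ≤ M^5 := by nlinarith [sq_nonneg M]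
    rw [h5]
    constructor
    · refine Real.log_le_log (by positivity) ?_
      push_cast
      nlinarith
    · refine Real.log_le_log (by positivity) ?_
      push_cast
      nlinarith

lemma harm_le (N : ℕ) : ∑ n ∈ Ioc 0 N, (1:ℝ) / n ≤ 1 + Real.log N := by
  have h := harmonic_le_one_add_log N
  have h2 : ((harmonic N : ℚ) : ℝ) = ∑ n ∈ Ioc 0 N, (1:ℝ) / n := by
    rw [harmonic_eq_sum_Icc, ← Icc_one_eq]
    push_cast
    simp
  rw [← h2]
  exact h

lemma abs_f_le (hv : ∀ n, f n = -1 ∨ f n = 0 ∨ f n = 1) (n : ℕ) : |f n| ≤ 1 := by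
  rcases hv n with h | h | h <;> simp [h]

/-- bound for all partial sums of `f n / n` -/
lemma L_bound (hv : ∀ n, f n = -1 ∨ f n = 0 ∨ f n = 1) (hM : 2 ≤ M)
    (hS : ∀ N, |∑ n ∈ Icc 1 N, f n| ≤ M) (N : ℕ) : |Lf f N| ≤ 11 * Real.log M := by
  obtain ⟨Y, hY3, hMY, hlog, -⟩ := exists_Y hM
  have hY0 : (0:ℝ) < Y := by exact_mod_cast (by omega : 0 < Y)
  have hl : (1:ℝ)/2 ≤ Real.log M := half_le_log_two.trans (Real.log_le_log (by norm_num) hM)
  have hlY : Real.log Y ≤ 5 * Real.log M - 1/2 := by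
    rw [Real.log_mul (by norm_num) hY0.ne'] at hlog
    linarith [half_le_log_two]
  have hsmall : ∀ N : ℕ, N ≤ Y → |Lf f N| ≤ 1 + Real.log Y := by
    intro N hN
    calc |Lf f N| ≤ ∑ n ∈ Ioc 0 N, |f n / n| := Finset.abs_sum_le_sum_abs _ _
      _ ≤ ∑ n ∈ Ioc 0 N, (1:ℝ) / n := by
          refine Finset.sum_le_sum fun n _ => ?_
          rw [abs_div, Nat.abs_cast]
          exact div_le_div_of_nonneg_right (abs_f_le hv n) (Nat.cast_nonneg n)
      _ ≤ ∑ n ∈ Ioc 0 Y, (1:ℝ) / n :=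
          Finset.sum_le_sum_of_subset_of_nonneg (Ioc_subset_Ioc_right hN) fun _ _ _ => by positivity
      _ ≤ _ := harm_le Y
  rcases le_total N Y with h | h
  · linarith [hsmall N h]
  · have h1 := L_diff hS h
    have h2 : 2 * M / (Y + 1) ≤ 2 := by
      rw [div_le_iff₀ (by positivity)]
      linarith
    have h3 := hsmall Y le_rfl
    have h4 : |Lf f N| ≤ |Lf f N - Lf f Y| + |Lf f Y| := by
      have := abs_add_le (Lf f N - Lf f Y) (Lf f Y)
      simpa using this
    linarith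

/-- bound for `∑ f n log n / n` -/
lemma A_bound (hv : ∀ n, f n = -1 ∨ f n = 0 ∨ f n = 1) (hM : 2 ≤ M)
    (hS : ∀ N, |∑ n ∈ Icc 1 N, f n| ≤ M) (N : ℕ) :
    |∑ n ∈ Ioc 0 N, f n * (Real.log n / n)| ≤ 60 * (Real.log M)^2 := by
  obtain ⟨Y, hY3, hMY, hlog, hlog1⟩ := exists_Y hM
  have hY0 : (0:ℝ) < Y := by exact_mod_cast (by omega : 0 < Y)
  have hl : (1:ℝ)/2 ≤ Real.log M := half_le_log_two.trans (Real.log_le_log (by norm_num) hM)
  have hlY : Real.log Y ≤ 5 * Real.log M - 1/2 := by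
    rw [Real.log_mul (by norm_num) hY0.ne'] at hlog
    linarith [half_le_log_two]
  have hlY0 : 0 ≤ Real.log Y := Real.log_nonneg (by exact_mod_cast (by omega : 1 ≤ Y))
  have hsmall : ∀ N : ℕ, N ≤ Y → |∑ n ∈ Ioc 0 N, f n * (Real.log n / n)| ≤
      Real.log Y * (1 + Real.log Y) := by
    intro N hN
    calc |∑ n ∈ Ioc 0 N, f n * (Real.log n / n)| ≤ ∑ n ∈ Ioc 0 N, |f n * (Real.log n / n)| :=
          Finset.abs_sum_le_sum_abs _ _
      _ ≤ ∑ n ∈ Ioc 0 N, Real.log Y * ((1:ℝ) / n) := by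
          refine Finset.sum_le_sum fun n hn => ?_
          have hn0 : (1:ℝ) ≤ n := by exact_mod_cast (mem_Ioc.1 hn).1
          have hn1 : (n:ℝ) ≤ Y := by exact_mod_cast (mem_Ioc.1 hn).2.trans hN
          have h0 : 0 ≤ Real.log n := Real.log_nonneg hn0
          rw [abs_mul, abs_of_nonneg (by positivity : 0 ≤ Real.log n / n)]
          calc |f n| * (Real.log n / n) ≤ 1 * (Real.log n / n) :=
                mul_le_mul_of_nonneg_right (abs_f_le hv n) (by positivity)
            _ = Real.log n * (1 / n) := by ring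
            _ ≤ _ := mul_le_mul_of_nonneg_right (Real.log_le_log (by linarith) hn1) (by positivity)
      _ ≤ ∑ n ∈ Ioc 0 Y, Real.log Y * ((1:ℝ) / n) :=
          Finset.sum_le_sum_of_subset_of_nonneg (Ioc_subset_Ioc_right hN) fun _ _ _ => by positivity
      _ ≤ _ := by
          rw [← Finset.mul_sum]
          exact mul_le_mul_of_nonneg_left (harm_le Y) hlY0
  rcases le_total N Y with h | h
  · have := hsmall N h
    nlinarith
  · have h3 := hsmall Y le_rfl
    have h4 : |∑ n ∈ Ioc Y N, f n * (Real.log n / n)| ≤ 2 * M * (Real.log ((Y+1:ℕ):ℝ) / ((Y+1:ℕ):ℝ)) := by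
      refine abel f (fun n => Real.log n / n) (2*M) Y (sum_Ioc_le hS Y) (fun n hn => ?_)
        (fun n hn => ?_) N
      · have hn3 : (3:ℝ) ≤ n := by exact_mod_cast (by omega : 3 ≤ n)
        have he : Real.exp 1 ≤ 3 := by linarith [Real.exp_one_lt_d9]
        refine Real.log_div_self_antitoneOn ?_ ?_ ?_
        · show Real.exp 1 ≤ (n:ℝ); linarith
        · show Real.exp 1 ≤ ((n+1:ℕ):ℝ); push_cast; linarith
        · push_cast; linarith
      · have hn3 : (1:ℝ) ≤ n := by exact_mod_cast (by omega : 1 ≤ n)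
        exact div_nonneg (Real.log_nonneg hn3) (by linarith)
    have h5 : 2 * M * (Real.log ((Y+1:ℕ):ℝ) / ((Y+1:ℕ):ℝ)) ≤ 10 * Real.log M := by
      push_cast
      have h6 : M / ((Y:ℝ)+1) ≤ 1 := by
        rw [div_le_one (by positivity)]
        linarith
      have h7 : 0 ≤ Real.log ((Y:ℝ)+1) := Real.log_nonneg (by linarith)
      calc 2 * M * (Real.log ((Y:ℝ)+1) / ((Y:ℝ)+1)) = 2 * (M / ((Y:ℝ)+1)) * Real.log ((Y:ℝ)+1) := by
            ring
        _ ≤ 2 * 1 * Real.log ((Y:ℝ)+1) := by gcongr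
        _ ≤ _ := by linarith
    rw [← Finset.sum_Ioc_consecutive _ (Nat.zero_le Y) h]
    have h8 := abs_add_le (∑ n ∈ Ioc 0 Y, f n * (Real.log n / n)) (∑ n ∈ Ioc Y N, f n * (Real.log n / n))
    nlinarith

/-- `f Λ / n` -/
noncomputable def FA (f : ℕ → ℝ) : ArithmeticFunction ℝ := ⟨fun n => f n * (vonMangoldt n / n), by simp⟩

/-- `f / n` -/
noncomputable def GA (f : ℕ → ℝ) : ArithmeticFunction ℝ := ⟨fun n => f n / n, by simp⟩

lemma FA_apply (f : ℕ → ℝ) (n : ℕ) : FA f n = f n * (vonMangoldt n / n) := rfl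
lemma GA_apply (f : ℕ → ℝ) (n : ℕ) : GA f n = f n / n := rfl

lemma FA_mul_GA (hm : ∀ m n, f (m * n) = f m * f n) (n : ℕ) :
    (FA f * GA f) n = f n * (Real.log n / n) := by
  rw [ArithmeticFunction.mul_apply]
  have h1 : ∀ x ∈ n.divisorsAntidiagonal, FA f x.1 * GA f x.2 =
      (f n / n) * vonMangoldt x.1 := by
    intro x hx
    have hx1 := (Nat.mem_divisorsAntidiagonal.1 hx).1
    rw [FA_apply, GA_apply, ← hx1, hm]
    push_cast
    ring
  have h2 : ∑ i ∈ n.divisorsAntidiagonal, vonMangoldt i.1 = Real.log n := by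
    rw [← vonMangoldt_sum]
    exact Nat.sum_divisorsAntidiagonal (f := fun i _ => vonMangoldt i)
  rw [Finset.sum_congr rfl h1, ← Finset.mul_sum, h2]
  ring

lemma conv_identity (hm : ∀ m n, f (m * n) = f m * f n) (N : ℕ) :
    ∑ n ∈ Ioc 0 N, f n * (Real.log n / n) = ∑ d ∈ Ioc 0 N, FA f d * Lf f (N / d) := by
  rw [← Finset.sum_congr rfl fun n _ => FA_mul_GA hm n, sum_Ioc_mul_eq_sum_sum]
  rfl

/-- Mertens in an interval -/
lemma mertens_interval : ∃ C : ℝ, 0 ≤ C ∧ ∀ (Y N : ℕ), 1 ≤ Y →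
    ∑ n ∈ Ioc (N / Y) N, vonMangoldt n / n ≤ Real.log (2 * Y) + C := by
  obtain ⟨C, hC0, hC⟩ := H41.SF.mertens
  refine ⟨2 * C, by positivity, fun Y N hY => ?_⟩
  have hY1 : (1:ℝ) ≤ Y := by exact_mod_cast hY
  have hl2 : 0 ≤ Real.log (2 * Y) := Real.log_nonneg (by linarith)
  rcases Nat.eq_zero_or_pos N with rfl | hN
  · simp; positivity
  have hN1 := abs_le.1 (hC N hN)
  have hNr : (0:ℝ) < N := by exact_mod_cast hN
  rcases Nat.eq_zero_or_pos (N / Y) with h | h
  · rw [h]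
    have : N < Y := by
      rcases Nat.div_eq_zero_iff.1 h with h | h
      · omega
      · exact h
    have h2 : Real.log N ≤ Real.log (2 * Y) := by
      refine Real.log_le_log hNr ?_
      have : (N:ℝ) ≤ Y := by exact_mod_cast this.le
      linarith
    linarith [hN1.2]
  · have h1 := abs_le.1 (hC (N / Y) h)
    have h2 : ∑ n ∈ Ioc 0 (N/Y), vonMangoldt n / (n:ℝ) + ∑ n ∈ Ioc (N / Y) N, vonMangoldt n / (n:ℝ) =
        ∑ n ∈ Ioc 0 N, vonMangoldt n / (n:ℝ) :=
      Finset.sum_Ioc_consecutive _ (Nat.zero_le _) (Nat.div_le_self N Y)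
    have h3 : Real.log N ≤ Real.log (2 * Y) + Real.log ((N / Y : ℕ):ℝ) := by
      have hq : (0:ℝ) < ((N / Y : ℕ):ℝ) := by exact_mod_cast h
      rw [← Real.log_mul (by positivity) hq.ne']
      refine Real.log_le_log hNr ?_
      have h4 : N < Y * (N / Y + 1) := Nat.lt_mul_div_succ N hY
      have h5 : N ≤ 2 * Y * (N / Y) := by nlinarith
      exact_mod_cast h5
    linarith [hN1.2, h1.1]

/-- `∑ f Λ / n` -/
theorem mangoldt_bound : ∃ C : ℝ, 0 < C ∧ ∀ (f : ℕ → ℝ) (M : ℝ), 2 ≤ M →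
    (∀ m n, f (m * n) = f m * f n) → f 1 = 1 → (∀ n, f n = -1 ∨ f n = 0 ∨ f n = 1) →
    (∀ N, |∑ n ∈ Icc 1 N, f n| ≤ M) → ∀ N : ℕ,
    |∑ d ∈ Ioc 0 N, f d * (vonMangoldt d / d)| ≤ C * (M * (Real.log M)^2) := by
  obtain ⟨K, hK0, hK⟩ := H41.SF.psi_bound
  obtain ⟨C, hC0, hC⟩ := mertens_interval
  refine ⟨162 * (170 + 8 * K + 44 * C), by positivity, fun f M hM hm h1 hv hS N => ?_⟩
  obtain ⟨Y, hY3, hMY, hlog, hlog1⟩ := exists_Y hM
  have hY0 : (0:ℝ) < Y := by exact_mod_cast (by omega : 0 < Y)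
  have hl : (1:ℝ)/2 ≤ Real.log M := half_le_log_two.trans (Real.log_le_log (by norm_num) hM)
  obtain ⟨N', hN'N, hN'L⟩ := ((eventually_ge_atTop N).and (L_lower hm h1 hv hM hS)).exists
  set L := Lf f N' with hL
  have hLpos : 0 < L := lt_of_lt_of_le (by positivity) hN'L
  have hLb : |L| ≤ 11 * Real.log M := L_bound hv hM hS N'
  have hFA : ∀ d, |FA f d| ≤ vonMangoldt d / d := by
    intro d
    rw [FA_apply, abs_mul, abs_of_nonneg (div_nonneg vonMangoldt_nonneg (Nat.cast_nonneg d))]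
    have := mul_le_mul_of_nonneg_right (abs_f_le hv d)
      (div_nonneg (vonMangoldt_nonneg (n := d)) (Nat.cast_nonneg (α := ℝ) d))
    linarith
  have hE1 : |∑ d ∈ Ioc 0 (N / Y), FA f d * (Lf f (N / d) - L)| ≤ 2 * K := by
    rcases Nat.eq_zero_or_pos N with rfl | hN
    · simp; positivity
    have hNr : (0:ℝ) < N := by exact_mod_cast hN
    calc |∑ d ∈ Ioc 0 (N / Y), FA f d * (Lf f (N / d) - L)|
        ≤ ∑ d ∈ Ioc 0 (N / Y), |FA f d * (Lf f (N / d) - L)| := Finset.abs_sum_le_sum_abs _ _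
      _ ≤ ∑ d ∈ Ioc 0 (N / Y), vonMangoldt d * (2 * M / N) := by
          refine Finset.sum_le_sum fun d hd => ?_
          have hd0 : (0:ℝ) < d := by exact_mod_cast (mem_Ioc.1 hd).1
          have h2 : |Lf f (N / d) - L| ≤ 2 * M / (((N / d : ℕ):ℝ) + 1) := by
            rw [abs_sub_comm]
            exact L_diff hS ((Nat.div_le_self N d).trans hN'N)
          have h3 : (N:ℝ) / d ≤ ((N / d : ℕ):ℝ) + 1 := by
            rw [div_le_iff₀ hd0]
            have := Nat.lt_mul_div_succ N (mem_Ioc.1 hd).1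
            have h3 : (N:ℝ) ≤ d * ((N / d + 1 : ℕ) : ℝ) := by exact_mod_cast this.le
            push_cast at h3
            linarith
          have h4 : 2 * M / (((N / d : ℕ):ℝ) + 1) ≤ 2 * M / ((N:ℝ) / d) :=
            div_le_div_of_nonneg_left (by linarith) (by positivity) h3
          rw [abs_mul]
          calc |FA f d| * |Lf f (N / d) - L| ≤ (vonMangoldt d / d) * (2 * M / ((N:ℝ) / d)) :=
                mul_le_mul (hFA d) (h2.trans h4) (abs_nonneg _)
                  (div_nonneg vonMangoldt_nonneg hd0.le)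
            _ = _ := by field_simp
      _ = (∑ d ∈ Ioc 0 (N / Y), vonMangoldt d) * (2 * M / N) := by rw [Finset.sum_mul]
      _ ≤ (K * ((N / Y : ℕ):ℝ)) * (2 * M / N) :=
          mul_le_mul_of_nonneg_right (hK _) (by positivity)
      _ ≤ (K * ((N:ℝ) / Y)) * (2 * M / N) := by
          gcongr
          exact Nat.cast_div_le
      _ = 2 * K * (M / Y) := by field_simp
      _ ≤ 2 * K * 1 := by
          gcongr
          rw [div_le_one hY0]
          exact hMY
      _ = 2 * K := by ring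
  have hE2 : |∑ d ∈ Ioc (N / Y) N, FA f d * (Lf f (N / d) - L)| ≤
      22 * Real.log M * (5 * Real.log M + C) := by
    calc |∑ d ∈ Ioc (N / Y) N, FA f d * (Lf f (N / d) - L)|
        ≤ ∑ d ∈ Ioc (N / Y) N, |FA f d * (Lf f (N / d) - L)| := Finset.abs_sum_le_sum_abs _ _
      _ ≤ ∑ d ∈ Ioc (N / Y) N, (vonMangoldt d / d) * (22 * Real.log M) := by
          refine Finset.sum_le_sum fun d hd => ?_
          rw [abs_mul]
          refine mul_le_mul (hFA d) ?_ (abs_nonneg _)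
            (div_nonneg vonMangoldt_nonneg (Nat.cast_nonneg d))
          have h2 := abs_sub (Lf f (N / d)) L
          have h3 := L_bound hv hM hS (N / d)
          linarith
      _ = (∑ d ∈ Ioc (N / Y) N, vonMangoldt d / d) * (22 * Real.log M) := by rw [Finset.sum_mul]
      _ ≤ (Real.log (2 * Y) + C) * (22 * Real.log M) :=
          mul_le_mul_of_nonneg_right (hC Y N (by omega)) (by linarith)
      _ ≤ (5 * Real.log M + C) * (22 * Real.log M) :=
          mul_le_mul_of_nonneg_right (by linarith) (by linarith)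
      _ = _ := by ring
  have hid := conv_identity hm N
  have hsplit : L * ∑ d ∈ Ioc 0 N, f d * (vonMangoldt d / d) =
      ∑ n ∈ Ioc 0 N, f n * (Real.log n / n) -
      (∑ d ∈ Ioc 0 (N / Y), FA f d * (Lf f (N / d) - L) +
       ∑ d ∈ Ioc (N / Y) N, FA f d * (Lf f (N / d) - L)) := by
    rw [Finset.sum_Ioc_consecutive _ (Nat.zero_le _) (Nat.div_le_self N Y), hid,
      ← Finset.sum_sub_distrib, Finset.mul_sum]
    refine Finset.sum_congr rfl fun d _ => ?_
    rw [FA_apply]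
    ring
  have hA := A_bound hv hM hS N
  have hl2 : (1:ℝ)/4 ≤ (Real.log M)^2 := by nlinarith
  have hfin : |L * ∑ d ∈ Ioc 0 N, f d * (vonMangoldt d / d)| ≤
      (170 + 8 * K + 44 * C) * (Real.log M)^2 := by
    rw [hsplit]
    have h2 := abs_sub (∑ n ∈ Ioc 0 N, f n * (Real.log n / n))
      (∑ d ∈ Ioc 0 (N / Y), FA f d * (Lf f (N / d) - L) +
       ∑ d ∈ Ioc (N / Y) N, FA f d * (Lf f (N / d) - L))
    have h3 := abs_add_le (∑ d ∈ Ioc 0 (N / Y), FA f d * (Lf f (N / d) - L))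
       (∑ d ∈ Ioc (N / Y) N, FA f d * (Lf f (N / d) - L))
    have h4 : 2 * K ≤ 8 * K * (Real.log M)^2 := by nlinarith
    have h5 : 22 * Real.log M * C ≤ 44 * C * (Real.log M)^2 := by
      nlinarith [mul_nonneg hC0 (by linarith : 0 ≤ Real.log M)]
    nlinarith
  rw [abs_mul, abs_of_pos hLpos] at hfin
  have h6 : 1 / (162 * M) * |∑ d ∈ Ioc 0 N, f d * (vonMangoldt d / d)| ≤
      (170 + 8 * K + 44 * C) * (Real.log M)^2 :=
    (mul_le_mul_of_nonneg_right hN'L (abs_nonneg _)).trans hfin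
  have h7 : |∑ d ∈ Ioc 0 N, f d * (vonMangoldt d / d)| =
      (162 * M) * (1 / (162 * M) * |∑ d ∈ Ioc 0 N, f d * (vonMangoldt d / d)|) := by
    field_simp
  rw [h7]
  calc (162 * M) * (1 / (162 * M) * |∑ d ∈ Ioc 0 N, f d * (vonMangoldt d / d)|) ≤
      (162 * M) * ((170 + 8 * K + 44 * C) * (Real.log M)^2) :=
        mul_le_mul_of_nonneg_left h6 (by positivity)
    _ = _ := by ring

/-- real characters with bounded partial sums, explicit dependence on the bound `M` -/
theorem charBound : ∃ C : ℝ, 0 < C ∧ ∀ (f : ℕ → ℝ) (M : ℝ), 2 ≤ M →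
    (∀ m n, f (m * n) = f m * f n) → f 1 = 1 → (∀ n, f n = -1 ∨ f n = 0 ∨ f n = 1) →
    (∀ N, |∑ n ∈ Icc 1 N, f n| ≤ M) → ∀ x y : ℕ, 2 ≤ y → y ≤ x →
    |∑ l ∈ (Ioc y x).filter Nat.Prime, f l / l| ≤
      C * (1 + M * (Real.log M)^2 / Real.log y) := by
  obtain ⟨C, hC0, hC⟩ := mangoldt_bound
  obtain ⟨C', hC'0, hC'⟩ := H41.SF.nonprime_sum_bound
  refine ⟨2 * C + 8 * C', by positivity, fun f M hM hm h1 hv hS x y hy _ => ?_⟩
  have hl : (1:ℝ)/2 ≤ Real.log M := half_le_log_two.trans (Real.log_le_log (by norm_num) hM)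
  have hml : (1:ℝ)/4 ≤ (Real.log M)^2 := by nlinarith
  have hml2 : (1:ℝ)/2 ≤ M * (Real.log M)^2 := by nlinarith
  -- primes only
  set a : ℕ → ℝ := fun n => if n.Prime then f n * (Real.log n / n) else 0 with ha
  have ha0 : ∀ N, |∑ n ∈ Ioc 0 N, a n| ≤ C * (M * (Real.log M)^2) + C' := by
    intro N
    have h2 : ∑ n ∈ Ioc 0 N, a n = ∑ d ∈ Ioc 0 N, f d * (vonMangoldt d / d) -
        ∑ d ∈ Ioc 0 N, f d * ((if d.Prime then 0 else vonMangoldt d) / (d:ℝ)) := by
      rw [← Finset.sum_sub_distrib]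
      refine Finset.sum_congr rfl fun d _ => ?_
      simp only [ha]
      split_ifs with hp
      · rw [vonMangoldt_apply_prime hp]; ring
      · ring
    rw [h2]
    have h3 : |∑ d ∈ Ioc 0 N, f d * ((if d.Prime then 0 else vonMangoldt d) / (d:ℝ))| ≤ C' := by
      refine (Finset.abs_sum_le_sum_abs _ _).trans (le_trans (Finset.sum_le_sum fun d _ => ?_) (hC' (Ioc 0 N)))
      have h4 : 0 ≤ (if d.Prime then 0 else vonMangoldt d) / (d:ℝ) := by
        split_ifs
        · simp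
        · exact div_nonneg vonMangoldt_nonneg (Nat.cast_nonneg d)
      rw [abs_mul, abs_of_nonneg h4]
      have := mul_le_mul_of_nonneg_right (abs_f_le hv d) h4
      linarith
    have h5 := hC f M hM hm h1 hv hS N
    have h6 := abs_sub (∑ d ∈ Ioc 0 N, f d * (vonMangoldt d / d))
      (∑ d ∈ Ioc 0 N, f d * ((if d.Prime then 0 else vonMangoldt d) / (d:ℝ)))
    linarith
  have hay : ∀ N, |∑ n ∈ Ioc y N, a n| ≤ 2 * (C * (M * (Real.log M)^2) + C') := by
    intro N
    rcases le_total y N with h | h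
    · have h2 := Finset.sum_Ioc_consecutive a (Nat.zero_le y) h
      have h3 := abs_le.1 (ha0 N)
      have h4 := abs_le.1 (ha0 y)
      rw [abs_le]
      constructor <;> linarith [h3.1, h3.2, h4.1, h4.2]
    · rw [Ioc_eq_empty_of_le h, sum_empty, abs_zero]
      have := (abs_nonneg _).trans (ha0 0)
      linarith
  have hyr : (2:ℝ) ≤ y := by exact_mod_cast hy
  have hlogy : 0 < Real.log y := Real.log_pos (by linarith)
  have hab := abel a (fun n => 1 / Real.log n) (2 * (C * (M * (Real.log M)^2) + C')) y hay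
    (fun n hn => by
      have h2 : (1:ℝ) < n := by exact_mod_cast (by omega : 1 < n)
      refine one_div_le_one_div_of_le (Real.log_pos h2) (Real.log_le_log (by linarith) ?_)
      push_cast
      linarith)
    (fun n hn => by
      have h2 : (1:ℝ) < n := by exact_mod_cast (by omega : 1 < n)
      exact (one_div_pos.2 (Real.log_pos h2)).le) x
  have heq : ∑ l ∈ (Ioc y x).filter Nat.Prime, f l / l = ∑ n ∈ Ioc y x, a n * (1 / Real.log n) := by
    rw [Finset.sum_filter]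
    refine Finset.sum_congr rfl fun n hn => ?_
    simp only [ha]
    split_ifs with hp
    · have h2 : Real.log n ≠ 0 := (Real.log_pos (by exact_mod_cast hp.one_lt)).ne'
      field_simp
    · simp
  rw [heq]
  refine hab.trans ?_
  have h7 : 1 / Real.log ((y+1:ℕ):ℝ) ≤ 1 / Real.log y := by
    refine one_div_le_one_div_of_le hlogy (Real.log_le_log (by linarith) ?_)
    push_cast
    linarith
  have h8 : 0 ≤ 2 * (C * (M * (Real.log M)^2) + C') := by positivity
  calc 2 * (C * (M * (Real.log M)^2) + C') * (1 / Real.log ((y+1:ℕ):ℝ)) ≤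
      2 * (C * (M * (Real.log M)^2) + C') * (1 / Real.log y) := mul_le_mul_of_nonneg_left h7 h8
    _ ≤ ((2 * C + 8 * C') * (M * (Real.log M)^2)) * (1 / Real.log y) := by
        refine mul_le_mul_of_nonneg_right ?_ (by positivity)
        nlinarith
    _ = (2 * C + 8 * C') * (M * (Real.log M)^2 / Real.log y) := by ring
    _ ≤ _ := by
        refine mul_le_mul_of_nonneg_left ?_ (by positivity)
        linarith

end Pool.Agent.H57.Gol
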