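import Pool.Agent.H57.Gol.Char
import Pool.Agent.H66.Gol.FSum

/-!
`fixedD`: for a fixed nonsquare `D` the block sums `Dk D` have bounded partial sums.
-/

set_option autoImplicit false

namespace Pool.Agent.H57.Gol

open Finset Pool.Agent.H95.Gol Pool.Agent.H66.Gol

/-- a telescope of blocks -/
theorem sum_Dk (D : ℤ) {a b : ℕ} (h : a ≤ b) :
    ∑ k ∈ Ico a b, Dk D k = ∑ l ∈ (Ioc (bb a) (bb b)).filter Nat.Prime, F D l / l := by
  induction b, h using Nat.le_induction with
  | base => simp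
  | succ b hab ih =>
    rw [Finset.sum_Ico_succ_top hab, ih]
    unfold Dk PB
    rw [Finset.sum_filter, Finset.sum_filter, Finset.sum_filter]
    exact Finset.sum_Ioc_consecutive _ (bb_mono hab) (bb_mono (Nat.le_succ b))

theorem F_one (D : ℤ) : F D 1 = 1 := by
  unfold F; simp

theorem fixedD (D : ℤ) (hD : ¬ IsSquare D) :
    ∃ C : ℝ, ∀ a b : ℕ, a ≤ b → |∑ k ∈ Ico a b, Dk D k| ≤ C := by
  obtain ⟨C, hC0, hC⟩ := charBound
  set M : ℝ := max 2 (4 * D.natAbs) with hM
  refine ⟨C * (1 + M * (Real.log M)^2 / Real.log 2), fun a b hab => ?_⟩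
  rw [sum_Dk D hab]
  refine (hC (F D) M (le_max_left _ _) (F_mul D) (F_one D) (F_values D)
    (fun N => (F_sum_trivial D hD N).trans (le_max_right _ _)) (bb b) (bb a) (two_le_bb a)
    (bb_mono hab)).trans ?_
  have h2 : (2:ℝ) ≤ bb a := by exact_mod_cast two_le_bb a
  have h3 : Real.log 2 ≤ Real.log (bb a) := Real.log_le_log (by norm_num) h2
  have h4 : 0 < Real.log 2 := Real.log_pos (by norm_num)
  have h5 : 0 ≤ M * (Real.log M)^2 := by positivity
  have h6 : M * (Real.log M)^2 / Real.log (bb a) ≤ M * (Real.log M)^2 / Real.log 2 :=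
    div_le_div_of_nonneg_left h5 h4 h3
  exact mul_le_mul_of_nonneg_left (by linarith) hC0.le

end Pool.Agent.H57.Gol
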