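import Pool.Agent.H57.Gol.Lambert

/-!
`∑_{n ≤ N} f n / n ≥ c / M` for all large `N`.
-/

set_option autoImplicit false

namespace Pool.Agent.H57.Gol

open Finset Filter Topology ArithmeticFunction

variable {f : ℕ → ℝ}

/-- `f` as an arithmetic function -/
noncomputable def fA (f : ℕ → ℝ) : ArithmeticFunction ℝ := ⟨fun n => if n = 0 then 0 else f n, by simp⟩

lemma fA_apply (f : ℕ → ℝ) {n : ℕ} (hn : n ≠ 0) : fA f n = f n := by
  show (if n = 0 then 0 else f n) = f n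
  simp [hn]

lemma fA_mult (hm : ∀ m n, f (m * n) = f m * f n) (h1 : f 1 = 1) : (fA f).IsMultiplicative := by
  rw [IsMultiplicative.iff_ne_zero]
  refine ⟨by rw [fA_apply f one_ne_zero, h1], fun {m n} hm0 hn0 _ => ?_⟩
  rw [fA_apply f hm0, fA_apply f hn0, fA_apply f (mul_ne_zero hm0 hn0), hm]

/-- `1 * f` -/
noncomputable def cA (f : ℕ → ℝ) : ArithmeticFunction ℝ := fA f * (zeta : ArithmeticFunction ℝ)

lemma cA_apply (f : ℕ → ℝ) (n : ℕ) : cA f n = ∑ d ∈ n.divisors, fA f d := by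
  unfold cA
  rw [coe_mul_zeta_apply]

lemma cA_mult (hm : ∀ m n, f (m * n) = f m * f n) (h1 : f 1 = 1) : (cA f).IsMultiplicative := by
  unfold cA
  exact (fA_mult hm h1).mul isMultiplicative_zeta.natCast

lemma f_pow (hm : ∀ m n, f (m * n) = f m * f n) (h1 : f 1 = 1) (p k : ℕ) : f (p^k) = (f p)^k := by
  induction k with
  | zero => simp [h1]
  | succ k ih => rw [pow_succ, hm, ih, pow_succ]

lemma cA_prime_pow (hm : ∀ m n, f (m * n) = f m * f n) (h1 : f 1 = 1) {p : ℕ} (hp : p.Prime)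
    (k : ℕ) : cA f (p^k) = ∑ j ∈ range (k+1), (f p)^j := by
  rw [cA_apply, Nat.sum_divisors_prime_pow hp]
  refine Finset.sum_congr rfl fun j _ => ?_
  rw [fA_apply f (pow_ne_zero _ hp.ne_zero), f_pow hm h1]

lemma geom_neg_one (k : ℕ) : ∑ j ∈ range (k+1), (-1:ℝ)^j = if Even k then 1 else 0 := by
  induction k with
  | zero => simp
  | succ k ih =>
    rw [Finset.sum_range_succ, ih]
    rcases Nat.even_or_odd k with h | h
    · have h2 : Odd (k+1) := h.add_one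
      simp [h, h2.neg_one_pow, Nat.not_even_iff_odd.2 h2]
    · have h2 : Even (k+1) := h.add_one
      simp [h2.neg_one_pow, Nat.not_even_iff_odd.2 h, h2]

lemma cA_prime_pow_nonneg (hm : ∀ m n, f (m * n) = f m * f n) (h1 : f 1 = 1)
    (hv : ∀ n, f n = -1 ∨ f n = 0 ∨ f n = 1) {p : ℕ} (hp : p.Prime)
    (k : ℕ) : 0 ≤ cA f (p^k) := by
  rw [cA_prime_pow hm h1 hp]
  rcases hv p with h | h | h
  · rw [h, geom_neg_one]; split_ifs <;> norm_num
  · rw [h]; exact Finset.sum_nonneg fun _ _ => by positivity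
  · rw [h]; exact Finset.sum_nonneg fun _ _ => by positivity

lemma cA_prime_pow_even (hm : ∀ m n, f (m * n) = f m * f n) (h1 : f 1 = 1)
    (hv : ∀ n, f n = -1 ∨ f n = 0 ∨ f n = 1) {p : ℕ} (hp : p.Prime)
    {k : ℕ} (hk : Even k) : 1 ≤ cA f (p^k) := by
  rw [cA_prime_pow hm h1 hp]
  have hsplit : ∀ t : ℝ, 0 ≤ t → 1 ≤ ∑ j ∈ range (k+1), t^j := by
    intro t ht
    rw [Finset.sum_range_succ']
    have : 0 ≤ ∑ j ∈ range k, t^(j+1) := Finset.sum_nonneg fun _ _ => by positivity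
    simp only [pow_zero]
    linarith
  rcases hv p with h | h | h
  · rw [h, geom_neg_one]; simp [hk]
  · rw [h]; exact hsplit 0 le_rfl
  · rw [h]; exact hsplit 1 zero_le_one

lemma cA_nonneg (hm : ∀ m n, f (m * n) = f m * f n) (h1 : f 1 = 1)
    (hv : ∀ n, f n = -1 ∨ f n = 0 ∨ f n = 1) (n : ℕ) : 0 ≤ cA f n := by
  rcases eq_or_ne n 0 with rfl | hn
  · simp
  rw [(cA_mult hm h1).multiplicative_factorization _ hn]
  refine Finset.prod_nonneg fun p hp => ?_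
  exact cA_prime_pow_nonneg hm h1 hv (Nat.prime_of_mem_primeFactors hp) _

lemma cA_sq (hm : ∀ m n, f (m * n) = f m * f n) (h1 : f 1 = 1)
    (hv : ∀ n, f n = -1 ∨ f n = 0 ∨ f n = 1) {n : ℕ} (hn : n ≠ 0) : 1 ≤ cA f (n^2) := by
  rw [(cA_mult hm h1).multiplicative_factorization _ (pow_ne_zero _ hn)]
  unfold Finsupp.prod
  refine le_trans (le_of_eq (Finset.prod_const_one (s := (n^2).factorization.support)).symm)
    (Finset.prod_le_prod (fun _ _ => zero_le_one) fun p hp => ?_)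
  refine cA_prime_pow_even hm h1 hv (Nat.prime_of_mem_primeFactors hp) ?_
  rw [Nat.factorization_pow]
  simp

lemma sum_divisors_swap (h : ℕ → ℕ → ℝ) (N : ℕ) :
    ∑ n ∈ Ioc 0 N, ∑ p ∈ n.divisorsAntidiagonal, h p.1 p.2 =
      ∑ d ∈ Ioc 0 N, ∑ m ∈ Ioc 0 (N / d), h d m := by
  rw [Finset.sum_sigma', Finset.sum_sigma']
  refine Finset.sum_bij' (fun x _ => ⟨x.2.1, x.2.2⟩) (fun y _ => ⟨y.1 * y.2, (y.1, y.2)⟩)
    ?_ ?_ ?_ ?_ ?_
  · rintro ⟨n, d, m⟩ hx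
    simp only [mem_sigma, mem_Ioc, Nat.mem_divisorsAntidiagonal] at hx ⊢
    obtain ⟨⟨h1, h2⟩, h3, h4⟩ := hx
    have hd : 0 < d := Nat.pos_of_ne_zero fun h => by simp [h] at h3; omega
    have hm : 0 < m := Nat.pos_of_ne_zero fun h => by simp [h] at h3; omega
    refine ⟨⟨hd, ?_⟩, hm, ?_⟩
    · exact (Nat.le_mul_of_pos_right d hm).trans (h3.le.trans h2)
    · rw [Nat.le_div_iff_mul_le hd, mul_comm, h3]; exact h2
  · rintro ⟨d, m⟩ hx
    simp only [mem_sigma, mem_Ioc, Nat.mem_divisorsAntidiagonal] at hx ⊢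
    obtain ⟨⟨h1, h2⟩, h3, h4⟩ := hx
    rw [Nat.le_div_iff_mul_le h1] at h4
    refine ⟨⟨Nat.mul_pos h1 h3, ?_⟩, trivial, (Nat.mul_pos h1 h3).ne'⟩
    rw [mul_comm]; exact h4
  · rintro ⟨n, d, m⟩ hx
    simp only [mem_sigma, mem_Ioc, Nat.mem_divisorsAntidiagonal] at hx ⊢
    obtain ⟨⟨h1, h2⟩, h3, h4⟩ := hx
    subst h3
    rfl
  · rintro ⟨d, m⟩ hx
    rfl
  · rintro ⟨n, d, m⟩ hx
    rfl

lemma lambert_finite (x : ℝ) (N : ℕ) :
    ∑ n ∈ Ioc 0 N, x ^ n * cA f n = ∑ d ∈ Ioc 0 N, f d * ∑ m ∈ Ioc 0 (N / d), (x ^ d) ^ m := by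
  have h1 : ∀ n ∈ Ioc 0 N, x ^ n * cA f n =
      ∑ p ∈ n.divisorsAntidiagonal, fA f p.1 * (x ^ p.1) ^ p.2 := by
    intro n _
    rw [cA_apply, Finset.mul_sum, ← Nat.sum_divisorsAntidiagonal (f := fun i _ => x ^ n * fA f i)]
    refine Finset.sum_congr rfl fun p hp => ?_
    rw [← pow_mul, (Nat.mem_divisorsAntidiagonal.1 hp).1]
    ring
  rw [Finset.sum_congr rfl h1, sum_divisors_swap (fun d m => fA f d * (x ^ d) ^ m)]
  refine Finset.sum_congr rfl fun d hd => ?_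
  rw [← Finset.mul_sum, fA_apply f (Nat.pos_iff_ne_zero.1 (mem_Ioc.1 hd).1)]

lemma geom_Ioc (y : ℝ) (hy : y ≠ 1) (q : ℕ) :
    ∑ m ∈ Ioc 0 q, y ^ m = y / (1 - y) - y ^ (q+1) / (1 - y) := by
  have h : (1:ℝ) - y ≠ 0 := sub_ne_zero.2 (Ne.symm hy)
  induction q with
  | zero => simp
  | succ q ih =>
    rw [Finset.sum_Ioc_succ_top (Nat.zero_le _), ih]
    field_simp
    ring

/-- the key inequality -/
lemma key_ineq (hm : ∀ m n, f (m * n) = f m * f n) (h1 : f 1 = 1)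
    (hv : ∀ n, f n = -1 ∨ f n = 0 ∨ f n = 1) {M : ℝ} (hS : ∀ N, |∑ n ∈ Icc 1 N, f n| ≤ M)
    {x : ℝ} (hx : 0 < x) (hx1 : x < 1) (N K : ℕ) (hK : K^2 ≤ N) :
    (1 - x) * (∑ m ∈ Ioc 0 K, x ^ (m^2) - N * x^N / (1 - x) - 2 * M) ≤ Lf f N := by
  have habs : ∀ n, |f n| ≤ 1 := fun n => by rcases hv n with h | h | h <;> simp [h]
  have hx0 : (0:ℝ) < 1 - x := by linarith
  -- squares
  have e1 : ∑ m ∈ Ioc 0 K, x ^ (m^2) ≤ ∑ n ∈ Ioc 0 N, x ^ n * cA f n := by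
    calc ∑ m ∈ Ioc 0 K, x ^ (m^2) ≤ ∑ m ∈ Ioc 0 K, x ^ (m^2) * cA f (m^2) := by
          refine Finset.sum_le_sum fun m hm' => ?_
          have := cA_sq hm h1 hv (Nat.pos_iff_ne_zero.1 (mem_Ioc.1 hm').1)
          nlinarith [pow_pos hx (m^2)]
      _ = ∑ n ∈ (Ioc 0 K).image (fun m => m^2), x ^ n * cA f n := by
          rw [Finset.sum_image]
          intro a _ b _ hab
          exact Nat.pow_left_injective (n := 2) (by norm_num) hab
      _ ≤ _ := by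
          refine Finset.sum_le_sum_of_subset_of_nonneg ?_ fun n _ _ =>
            mul_nonneg (pow_pos hx n).le (cA_nonneg hm h1 hv n)
          intro n hn
          obtain ⟨m, hm', rfl⟩ := Finset.mem_image.1 hn
          rw [mem_Ioc] at hm' ⊢
          exact ⟨Nat.pow_pos hm'.1, (Nat.pow_le_pow_left hm'.2 2).trans hK⟩
  rw [lambert_finite] at e1
  -- remove the tails
  have e2 : ∑ d ∈ Ioc 0 N, f d * ∑ m ∈ Ioc 0 (N / d), (x ^ d) ^ m ≤
      ∑ d ∈ Ioc 0 N, f d * (x^d / (1 - x^d)) + N * x^N / (1 - x) := by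
    have : (N:ℝ) * x^N / (1 - x) = ∑ _d ∈ Ioc 0 N, x^N / (1 - x) := by
      rw [Finset.sum_const, Nat.card_Ioc, nsmul_eq_mul]; simp; ring
    rw [this, ← Finset.sum_add_distrib]
    refine Finset.sum_le_sum fun d hd => ?_
    have hd0 := (mem_Ioc.1 hd).1
    have hxd : x^d < 1 := pow_lt_one₀ hx.le hx1 hd0.ne'
    rw [geom_Ioc _ hxd.ne, mul_sub]
    have h3 : (x^d)^(N/d+1) / (1 - x^d) ≤ x^N / (1 - x) := by
      have h4 : (x^d)^(N/d+1) ≤ x^N := by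
        rw [← pow_mul]
        exact pow_le_pow_of_le_one hx.le hx1.le (Nat.lt_mul_div_succ N hd0).le
      have h5 : 1 - x ≤ 1 - x^d := by
        have := pow_le_of_le_one hx.le hx1.le hd0.ne'
        linarith
      exact div_le_div₀ (by positivity) h4 hx0 h5
    have h6 : 0 ≤ (x^d)^(N/d+1) / (1 - x^d) := div_nonneg (by positivity) (by linarith)
    have h7 : - (f d * ((x^d)^(N/d+1) / (1 - x^d))) ≤ (x^d)^(N/d+1) / (1 - x^d) := by
      have := (abs_le.1 (habs d)).1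
      nlinarith
    linarith
  have e3 : (1 - x) * ∑ d ∈ Ioc 0 N, f d * (x^d / (1 - x^d)) =
      Lf f N - ∑ d ∈ Ioc 0 N, f d * be x d := by
    unfold Lf
    rw [Finset.mul_sum, ← Finset.sum_sub_distrib]
    refine Finset.sum_congr rfl fun d hd => ?_
    have hd0 := (mem_Ioc.1 hd).1
    have hG := Gs_pos hx.le (by omega : 1 ≤ d)
    have hdr : (0:ℝ) < d := by exact_mod_cast hd0
    rw [one_sub_pow_eq, be]
    field_simp
    ring
  have e4 : |∑ d ∈ Ioc 0 N, f d * be x d| ≤ 2 * M * be x (0+1) :=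
    abel f (be x) (2*M) 0 (sum_Ioc_le hS 0) (fun n hn => be_anti hx hx1.le (by omega))
      (fun n hn => be_nonneg hx.le hx1.le (by omega)) N
  have e5 : be x (0+1) = 1 - x := by
    unfold be Gs
    simp
  rw [e5] at e4
  have e6 : (1 - x) * (∑ m ∈ Ioc 0 K, x ^ (m^2) - N * x^N / (1 - x)) ≤
      (1 - x) * ∑ d ∈ Ioc 0 N, f d * (x^d / (1 - x^d)) :=
    mul_le_mul_of_nonneg_left (by linarith) hx0.le
  rw [e3] at e6
  have := (abs_le.1 e4).1
  nlinarith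

/-- lower bound for the partial sums of `L(1)` -/
theorem L_lower (hm : ∀ m n, f (m * n) = f m * f n) (h1 : f 1 = 1)
    (hv : ∀ n, f n = -1 ∨ f n = 0 ∨ f n = 1) {M : ℝ} (hM : 2 ≤ M)
    (hS : ∀ N, |∑ n ∈ Icc 1 N, f n| ≤ M) :
    ∀ᶠ N : ℕ in atTop, 1 / (162 * M) ≤ Lf f N := by
  set K := ⌈8 * M⌉₊ with hKdef
  have hK1 : 8 * M ≤ K := Nat.le_ceil _
  have hK2 : (K:ℝ) ≤ 9 * M := by
    have := (Nat.ceil_lt_add_one (by linarith : 0 ≤ 8 * M)).le
    linarith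
  have hKpos : (0:ℝ) < K := by linarith
  set x : ℝ := 1 - 1 / (2 * K^2) with hx
  have hxa : 1 - x = 1 / (2 * K^2) := by rw [hx]; ring
  have hxs : (1:ℝ) / (2 * K^2) ≤ 1/2 := by
    rw [div_le_div_iff₀ (by positivity) (by norm_num)]
    nlinarith
  have hxp : (0:ℝ) < 1 / (2 * K^2) := by positivity
  have hx0 : 0 < x := by rw [hx]; linarith
  have hx1 : x < 1 := by rw [hx]; linarith
  have ht : Tendsto (fun N : ℕ => (N:ℝ) * x^N / (1 - x)) atTop (𝓝 (0 / (1 - x))) :=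
    (tendsto_self_mul_const_pow_of_lt_one hx0.le hx1).div_const _
  rw [zero_div] at ht
  have hev := ht.eventually (gt_mem_nhds (by linarith : (0:ℝ) < M))
  filter_upwards [hev, eventually_ge_atTop (K^2)] with N hN1 hN2
  refine le_trans ?_ (key_ineq hm h1 hv hS hx0 hx1 N K hN2)
  have hsum : (K:ℝ)/2 ≤ ∑ m ∈ Ioc 0 K, x ^ (m^2) := by
    have hb : (1:ℝ)/2 ≤ x^(K^2) := by
      have := one_add_mul_le_pow (a := -(1 / (2 * (K:ℝ)^2))) (by linarith) (K^2)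
      have h2 : 1 + -(1 / (2 * (K:ℝ)^2)) = x := by rw [hx]; ring
      rw [h2] at this
      refine le_trans (le_of_eq ?_) this
      push_cast
      field_simp
      norm_num
    calc (K:ℝ)/2 = ∑ _m ∈ Ioc 0 K, (1:ℝ)/2 := by
          rw [Finset.sum_const, Nat.card_Ioc, nsmul_eq_mul]; simp; ring
      _ ≤ _ := Finset.sum_le_sum fun m hm' => hb.trans
          (pow_le_pow_of_le_one hx0.le hx1.le (Nat.pow_le_pow_left (mem_Ioc.1 hm').2 2))
  have h3 : M ≤ ∑ m ∈ Ioc 0 K, x ^ (m^2) - N * x^N / (1 - x) - 2 * M := by linarith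
  calc 1 / (162 * M) = 1 / (2 * (9 * M)^2) * M := by field_simp; norm_num
    _ ≤ 1 / (2 * K^2) * M := by gcongr
    _ = (1 - x) * M := by rw [hxa]
    _ ≤ _ := mul_le_mul_of_nonneg_left h3 (by linarith)

end Pool.Agent.H57.Gol
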