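import Pool.Agent.H41.SF.Mertens
import Pool.Agent.H95.Gol.Basic

/-!
Real completely multiplicative functions with bounded partial sums: explicit lower bound for
`∑ f n / n` by Lambert series (Monsky's argument), finite form.
-/

set_option autoImplicit false

namespace Pool.Agent.H57.Gol

open Finset Filter Topology ArithmeticFunction

/-- one sided Abel inequality -/
lemma abel_aux (a g : ℕ → ℝ) (B : ℝ) (A : ℕ) (hA : ∀ N, ∑ n ∈ Ioc A N, a n ≤ B)
    (hg : ∀ n, A < n → g (n+1) ≤ g n) (k : ℕ) :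
    ∑ n ∈ Ioc A (A+1+k), a n * g n ≤
      (∑ n ∈ Ioc A (A+1+k), a n) * g (A+1+k) + B * (g (A+1) - g (A+1+k)) := by
  induction k with
  | zero => simp
  | succ k ih =>
    rw [← add_assoc, Finset.sum_Ioc_succ_top (by omega), Finset.sum_Ioc_succ_top (by omega)]
    have h1 := hA (A+1+k)
    have h2 := hg (A+1+k) (by omega)
    nlinarith [mul_nonneg (sub_nonneg.2 h1) (sub_nonneg.2 h2)]

lemma abel_le (a g : ℕ → ℝ) (B : ℝ) (A : ℕ) (hA : ∀ N, ∑ n ∈ Ioc A N, a n ≤ B)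
    (hg : ∀ n, A < n → g (n+1) ≤ g n) (hg0 : ∀ n, A < n → 0 ≤ g n) (N : ℕ) :
    ∑ n ∈ Ioc A N, a n * g n ≤ B * g (A+1) := by
  have hB : 0 ≤ B := by simpa using hA A
  rcases Nat.lt_or_ge A N with h | h
  · obtain ⟨k, rfl⟩ := Nat.exists_eq_add_of_le (Nat.succ_le_of_lt h)
    refine (abel_aux a g B A hA hg k).trans ?_
    have h1 := hA (A+1+k)
    have h2 := hg0 (A+1+k) (by omega)
    have := mul_le_mul_of_nonneg_right h1 h2
    simp only [Nat.succ_eq_add_one] at *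
    nlinarith
  · rw [Ioc_eq_empty_of_le h, sum_empty]
    exact mul_nonneg hB (hg0 _ (by omega))

/-- Abel's inequality -/
lemma abel (a g : ℕ → ℝ) (B : ℝ) (A : ℕ) (hA : ∀ N, |∑ n ∈ Ioc A N, a n| ≤ B)
    (hg : ∀ n, A < n → g (n+1) ≤ g n) (hg0 : ∀ n, A < n → 0 ≤ g n) (N : ℕ) :
    |∑ n ∈ Ioc A N, a n * g n| ≤ B * g (A+1) := by
  rw [abs_le]
  constructor
  · have h := abel_le (fun n => - a n) g B A (fun N => by
      rw [Finset.sum_neg_distrib]
      have := (abs_le.1 (hA N)).1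
      linarith) hg hg0 N
    have h2 : ∑ n ∈ Ioc A N, - a n * g n = - ∑ n ∈ Ioc A N, a n * g n := by
      rw [← Finset.sum_neg_distrib]
      exact Finset.sum_congr rfl fun _ _ => by ring
    rw [h2] at h
    linarith
  · exact abel_le a g B A (fun N => (abs_le.1 (hA N)).2) hg hg0 N

lemma Icc_one_eq (N : ℕ) : Icc 1 N = Ioc 0 N := by ext; simp; omega

lemma sum_Ioc_le {f : ℕ → ℝ} {M : ℝ} (hS : ∀ N, |∑ n ∈ Icc 1 N, f n| ≤ M) (A N : ℕ) :
    |∑ n ∈ Ioc A N, f n| ≤ 2 * M := by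
  have hM : 0 ≤ M := (abs_nonneg _).trans (hS 0)
  rcases Nat.lt_or_ge A N with h | h
  · have h1 : ∑ n ∈ Ioc A N, f n = ∑ n ∈ Icc 1 N, f n - ∑ n ∈ Icc 1 A, f n := by
      rw [Icc_one_eq, Icc_one_eq, ← Finset.sum_Ioc_consecutive f (Nat.zero_le A) h.le]
      ring
    rw [h1]
    have h2 := hS N
    have h3 := hS A
    rw [abs_le] at *
    constructor <;> linarith [h2.1, h2.2, h3.1, h3.2]
  · rw [Ioc_eq_empty_of_le h, sum_empty, abs_zero]; positivity

/-- partial sums of `∑ f n / n` -/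
noncomputable def Lf (f : ℕ → ℝ) (N : ℕ) : ℝ := ∑ n ∈ Ioc 0 N, f n / n

lemma L_diff {f : ℕ → ℝ} {M : ℝ} (hS : ∀ N, |∑ n ∈ Icc 1 N, f n| ≤ M) {A N : ℕ} (h : A ≤ N) :
    |Lf f N - Lf f A| ≤ 2 * M / (A + 1) := by
  have h1 : Lf f N - Lf f A = ∑ n ∈ Ioc A N, f n * (1 / (n:ℝ)) := by
    unfold Lf
    rw [← Finset.sum_Ioc_consecutive _ (Nat.zero_le A) h]
    simp only [add_sub_cancel_left]
    exact Finset.sum_congr rfl fun _ _ => by ring
  rw [h1]
  have := abel f (fun n => 1 / (n:ℝ)) (2 * M) A (sum_Ioc_le hS A) (fun n hn => by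
    have : (0:ℝ) < n := by exact_mod_cast (by omega : 0 < n)
    push_cast
    exact one_div_le_one_div_of_le this (by linarith)) (fun n hn => by positivity) N
  refine this.trans (le_of_eq ?_)
  push_cast
  ring

/-! ### the Lambert weights -/

/-- geometric sums -/
noncomputable def Gs (x : ℝ) (d : ℕ) : ℝ := ∑ j ∈ range d, x ^ j

lemma Gs_succ (x : ℝ) (d : ℕ) : Gs x (d+1) = 1 + x * Gs x d := by
  unfold Gs
  rw [Finset.sum_range_succ', Finset.mul_sum, pow_zero, add_comm]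
  congr 1
  exact Finset.sum_congr rfl fun _ _ => by ring

lemma Gs_amgm {y : ℝ} (d : ℕ) (hd : 1 ≤ d) : (d:ℝ) * y ^ (d - 1) ≤ Gs (y^2) d := by
  have h1 : 2 * Gs (y^2) d = ∑ j ∈ range d, ((y^2)^j + (y^2)^(d-1-j)) := by
    rw [Finset.sum_add_distrib]
    have := Finset.sum_range_reflect (fun j => (y^2)^j) d
    rw [this]
    unfold Gs
    ring
  have h2 : ∑ j ∈ range d, ((y^2)^j + (y^2)^(d-1-j)) ≥ ∑ _j ∈ range d, 2 * y^(d-1) := by
    refine Finset.sum_le_sum fun j hj => ?_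
    have hj' := Finset.mem_range.1 hj
    have h3 : y^(d-1) = y^j * y^(d-1-j) := by
      rw [← pow_add]; congr 1; omega
    rw [h3, ← pow_mul, ← pow_mul, mul_comm 2 j, mul_comm 2 (d-1-j), pow_mul, pow_mul]
    nlinarith [sq_nonneg (y^j - y^(d-1-j))]
  rw [← h1, Finset.sum_const, Finset.card_range, nsmul_eq_mul] at h2
  linarith

/-- `(1-x) b_d` in Monsky's notation -/
noncomputable def be (x : ℝ) (d : ℕ) : ℝ := 1 / d - x ^ d / Gs x d

lemma Gs_pos {x : ℝ} (hx : 0 ≤ x) {d : ℕ} (hd : 1 ≤ d) : 0 < Gs x d := by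
  unfold Gs
  obtain ⟨e, rfl⟩ := Nat.exists_eq_add_of_le hd
  rw [add_comm, Finset.sum_range_succ']
  have : 0 ≤ ∑ k ∈ range e, x ^ (k+1) := Finset.sum_nonneg fun _ _ => by positivity
  simp only [pow_zero]
  linarith

lemma be_nonneg {x : ℝ} (hx : 0 ≤ x) (hx1 : x ≤ 1) {d : ℕ} (hd : 1 ≤ d) : 0 ≤ be x d := by
  unfold be
  have hd0 : (0:ℝ) < d := by exact_mod_cast hd
  rw [sub_nonneg, div_le_div_iff₀ (Gs_pos hx hd) hd0, one_mul]
  unfold Gs
  calc x ^ d * d = ∑ _j ∈ range d, x ^ d := by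
        rw [Finset.sum_const, Finset.card_range, nsmul_eq_mul]; ring
    _ ≤ _ := Finset.sum_le_sum fun j hj =>
        pow_le_pow_of_le_one hx hx1 (Finset.mem_range.1 hj).le

lemma be_anti {x : ℝ} (hx : 0 < x) (hx1 : x ≤ 1) {d : ℕ} (hd : 1 ≤ d) : be x (d+1) ≤ be x d := by
  have hd0 : (0:ℝ) < d := by exact_mod_cast hd
  have hG := Gs_pos hx.le hd
  have hG1 := Gs_pos hx.le (by omega : 1 ≤ d+1)
  have hprod : (d:ℝ) * (d+1) * x^d ≤ Gs x d * Gs x (d+1) := by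
    have hy0 : 0 ≤ √x := Real.sqrt_nonneg x
    have hy1 : √x ≤ 1 := by simpa using Real.sqrt_le_sqrt hx1
    have hyx : (√x)^2 = x := Real.sq_sqrt hx.le
    have h1 := Gs_amgm (y := √x) d hd
    have h2 := Gs_amgm (y := √x) (d+1) (by omega)
    rw [hyx] at h1 h2
    have h3 : (d:ℝ) * (d+1) * x^d ≤ (d * √x^(d-1)) * (((d+1:ℕ):ℝ) * √x^(d+1-1)) := by
      have h4 : (√x)^(d-1) * (√x)^(d+1-1) ≥ x^d := by
        rw [← pow_add]
        calc x^d = ((√x)^2)^d := by rw [hyx]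
          _ = (√x)^(2*d) := by rw [← pow_mul]
          _ ≤ (√x)^(d-1 + (d+1-1)) := pow_le_pow_of_le_one hy0 hy1 (by omega)
      calc (d:ℝ) * (d+1) * x^d ≤ d * (d+1) * ((√x)^(d-1) * (√x)^(d+1-1)) :=
            mul_le_mul_of_nonneg_left h4 (by positivity)
        _ = _ := by push_cast; ring
    exact h3.trans (mul_le_mul h1 h2 (by positivity) hG.le)
  unfold be
  have key : x^d / Gs x d - x^(d+1) / Gs x (d+1) = x^d / (Gs x d * Gs x (d+1)) := by
    rw [Gs_succ] at hG1 ⊢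
    field_simp
    ring
  have h5 : x^d / (Gs x d * Gs x (d+1)) ≤ 1 / d - 1 / ((d+1 : ℕ):ℝ) := by
    have : 1 / (d:ℝ) - 1 / ((d+1 : ℕ):ℝ) = 1 / (d * (d+1)) := by
      push_cast
      field_simp
      ring
    rw [this, div_le_div_iff₀ (by positivity) (by positivity)]
    linarith
  linarith

lemma one_sub_pow_eq (x : ℝ) (d : ℕ) : 1 - x^d = (1 - x) * Gs x d := by
  unfold Gs
  have := mul_neg_geom_sum x d
  linarith

end Pool.Agent.H57.Gol
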